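import Pool.Agent.L0h98.KC.Def

/-!
# KC, module DIC: Dickson's lemma for parities
-/

set_option autoImplicit false
set_option linter.all false

namespace Pool.Agent.L0h88.KC

open Finset Pool.Agent.L0h98.KC

theorem t_DIC : S_DIC := by
  classical
  intro J S _ _ L
  let X : (J → Bool) → Set (J → ℕ) := fun ε =>
    {m | (∀ s, ∑ j, (m j : ℤ) * L j s = 0) ∧ ∀ j, (Even (m j) ↔ ε j = true)}
  have hfin : ∀ ε, {m | Minimal (· ∈ X ε) m}.Finite := by
    intro ε
    have h1 : {m | Minimal (· ∈ X ε) m}.IsPWO := Set.isPWO_of_wellQuasiOrderedLE _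
    exact (setOf_minimal_antichain (· ∈ X ε)).finite_of_partiallyWellOrderedOn h1
  choose b hb using fun ε => (hfin ε).bddAbove
  refine ⟨∑ ε, ∑ j, b ε j, fun m hm => ?_⟩
  have hmX : m ∈ X (fun j => decide (Even (m j))) := ⟨hm, fun j => by simp⟩
  obtain ⟨m', hle, hmin⟩ := exists_minimal_le_of_wellFoundedLT (· ∈ X (fun j => decide (Even (m j)))) m hmX
  refine ⟨m', hle, fun j => ?_, hmin.prop.1, fun j => ?_⟩
  · have h1 : m' j ≤ b (fun j => decide (Even (m j))) j := hb _ hmin j
    have h2 : b (fun j => decide (Even (m j))) j ≤ ∑ j, b (fun j => decide (Even (m j))) j :=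
      Finset.single_le_sum (f := fun j => b (fun j => decide (Even (m j))) j)
        (fun _ _ => Nat.zero_le _) (mem_univ j)
    have h3 : ∑ j, b (fun j => decide (Even (m j))) j ≤ ∑ ε, ∑ j, b ε j :=
      Finset.single_le_sum (f := fun ε => ∑ j, b ε j) (fun _ _ => Nat.zero_le _)
        (mem_univ (fun j => decide (Even (m j))))
    omega
  · rw [Nat.even_sub (hle j)]
    have h1 := hmin.prop.2 j
    simp only [decide_eq_true_eq] at h1
    exact h1.symm

end Pool.Agent.L0h88.KC
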