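import Pool.Agent.L0h98.KC.Def

/-!
# KC, module REPC: repair for a matrix given by its positions
-/

set_option autoImplicit false
set_option linter.all false

namespace Pool.Agent.L0h88.KC

open Finset Pool.Agent.L0h98.KC
open Pool.Agent.N404.LF (cnt)

theorem exists_enum {R E : Type} [Fintype E] (ρ : E → R) (Δ : ℕ) (h : ∀ r, cnt ρ r ≤ Δ) :
    ∃ g : E → Fin Δ, ∀ e e', ρ e = ρ e' → g e = g e' → e = e' := by
  classical
  have h1 : ∀ r, Nonempty ({e // ρ e = r} ↪ Fin Δ) := by
    intro r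
    rw [Function.Embedding.nonempty_iff_card_le, Fintype.card_fin, Fintype.card_subtype]
    refine le_trans (le_of_eq ?_) (h r)
    unfold cnt
    congr 1
  have f := fun r => Classical.choice (h1 r)
  refine ⟨fun e => f (ρ e) ⟨e, rfl⟩, fun e e' he hg => ?_⟩
  have aux : ∀ r (h : ρ e' = r), f (ρ e') ⟨e', rfl⟩ = f r ⟨e', h⟩ := by
    rintro r rfl
    rfl
  simp only at hg
  rw [aux (ρ e) he.symm] at hg
  exact congrArg Subtype.val ((f (ρ e)).injective hg)

theorem t_REPC (hR : Pool.Agent.N404.KL.S_REP) : S_REPC := by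
  classical
  intro R V E _ _ _ ρ κ w x C₀ Δ m t B hinj hw hΔ hx hC hB ht hsp hgood
  obtain ⟨g, hg⟩ := exists_enum ρ Δ hΔ
  obtain ⟨Φ, hΦ⟩ : ∃ Φ : E → R × Fin Δ, Φ = fun e => (ρ e, g e) := ⟨_, rfl⟩
  have hΦi : Function.Injective Φ := by
    intro e e' h
    rw [hΦ] at h
    simp only [Prod.mk.injEq] at h
    exact hg e e' h.1 h.2
  obtain ⟨c, a, hch, hcn⟩ : ∃ (c : R → Fin Δ → V ⊕ (R × Fin Δ)) (a : R → Fin Δ → ℝ),
      (∀ e r j, Φ e = (r, j) → c r j = Sum.inl (κ e) ∧ a r j = w e) ∧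
      ∀ r j, (¬ ∃ e, Φ e = (r, j)) → c r j = Sum.inr (r, j) ∧ a r j = 0 := by
    refine ⟨fun r j => if h : ∃ e, Φ e = (r, j) then Sum.inl (κ h.choose) else Sum.inr (r, j),
      fun r j => if h : ∃ e, Φ e = (r, j) then w h.choose else 0, ?_, ?_⟩
    · intro e r j h
      have h1 : ∃ e, Φ e = (r, j) := ⟨e, h⟩
      have h2 : h1.choose = e := hΦi (h1.choose_spec.trans h.symm)
      simp only
      rw [dif_pos h1, dif_pos h1, h2]
      exact ⟨rfl, rfl⟩
    · intro r j h
      simp only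
      rw [dif_neg h, dif_neg h]
      exact ⟨rfl, rfl⟩
  have hfst : ∀ e r j, Φ e = (r, j) → ρ e = r := by
    intro e r j h
    rw [hΦ] at h
    exact congrArg Prod.fst h
  have hsum : ∀ (X : V ⊕ (R × Fin Δ) → ℝ) (r : R), ∑ j, a r j * X (c r j) =
      ∑ e ∈ univ.filter (fun e => ρ e = r), w e * X (Sum.inl (κ e)) := by
    intro X r
    symm
    refine Finset.sum_of_injOn g ?_ (fun _ _ => mem_coe.2 (mem_univ _)) ?_ ?_
    · intro e he e' he' h
      rw [mem_coe, mem_filter] at he he'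
      exact hg e e' (he.2.trans he'.2.symm) h
    · intro j _ hj
      have h1 : ¬ ∃ e, Φ e = (r, j) := by
        rintro ⟨e, he⟩
        apply hj
        rw [hΦ] at he
        simp only [Prod.mk.injEq] at he
        exact ⟨e, by rw [mem_coe, mem_filter]; exact ⟨mem_univ _, he.1⟩, he.2⟩
      rw [(hcn r j h1).2, zero_mul]
    · intro e he
      rw [mem_filter] at he
      have h1 : Φ e = (r, g e) := by rw [hΦ]; simp only; rw [he.2]
      rw [(hch e r (g e) h1).1, (hch e r (g e) h1).2]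
  have g1 : ∀ r, Function.Injective (c r) := by
    intro r j j' h
    by_cases h1 : ∃ e, Φ e = (r, j)
    · by_cases h2 : ∃ e, Φ e = (r, j')
      · obtain ⟨e, he⟩ := h1
        obtain ⟨e', he'⟩ := h2
        rw [(hch e r j he).1, (hch e' r j' he').1, Sum.inl.injEq] at h
        have k1 : ρ e = r := hfst e r j he
        have k2 : ρ e' = r := hfst e' r j' he'
        have k3 := hinj e e' (k1.trans k2.symm) h
        rw [k3] at he
        have k4 := he.symm.trans he'
        exact congrArg Prod.snd k4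
      · obtain ⟨e, he⟩ := h1
        rw [(hch e r j he).1, (hcn r j' h2).1] at h
        exact absurd h (by simp)
    · by_cases h2 : ∃ e, Φ e = (r, j')
      · obtain ⟨e', he'⟩ := h2
        rw [(hcn r j h1).1, (hch e' r j' he').1] at h
        exact absurd h (by simp)
      · rw [(hcn r j h1).1, (hcn r j' h2).1, Sum.inr.injEq, Prod.mk.injEq] at h
        exact h.2
  have g2 : ∀ r j, |a r j| ≤ 1 := by
    intro r j
    by_cases h1 : ∃ e, Φ e = (r, j)
    · obtain ⟨e, he⟩ := h1
      rw [(hch e r j he).2]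
      exact hw e
    · rw [(hcn r j h1).2]
      norm_num
  have g3 : ∀ v, (Sum.elim x (fun _ => 1) : V ⊕ (R × Fin Δ) → ℝ) v = 1 ∨
      (Sum.elim x (fun _ => 1) : V ⊕ (R × Fin Δ) → ℝ) v = -1 := by
    rintro (v | p)
    · exact hx v
    · exact Or.inl rfl
  have g4 : ∀ (S : Finset R) (T : Finset (V ⊕ (R × Fin Δ))), S.Nonempty → S.card + T.card ≤ m →
      5 * (univ.filter fun p : R × Fin Δ => p.1 ∈ S ∧ c p.1 p.2 ∈ T).card <
        6 * (S.card + T.card) := by
    intro S T hS hST
    have h1 := Finset.card_toLeft_add_card_toRight (u := T)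
    have h2 := hsp S T.toLeft hS (by omega)
    have h3 : (univ.filter fun p : R × Fin Δ => p.1 ∈ S ∧ c p.1 p.2 ∈ T) ⊆
        ((univ.filter fun e => ρ e ∈ S ∧ κ e ∈ T.toLeft).image Φ) ∪ T.toRight := by
      rintro ⟨r, j⟩ hp
      rw [mem_filter] at hp
      simp only at hp
      rw [mem_union]
      by_cases h4 : ∃ e, Φ e = (r, j)
      · left
        obtain ⟨e, he⟩ := h4
        rw [mem_image]
        refine ⟨e, ?_, he⟩
        rw [mem_filter, Finset.mem_toLeft]
        have k1 : ρ e = r := hfst e r j he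
        rw [(hch e r j he).1] at hp
        exact ⟨mem_univ _, by rw [k1]; exact hp.2.1, hp.2.2⟩
      · right
        rw [Finset.mem_toRight]
        rw [(hcn r j h4).1] at hp
        exact hp.2.2
    have h4 := (card_le_card h3).trans (card_union_le _ _)
    have h5 : ((univ.filter fun e => ρ e ∈ S ∧ κ e ∈ T.toLeft).image Φ).card ≤
        (univ.filter fun e => ρ e ∈ S ∧ κ e ∈ T.toLeft).card := card_image_le
    omega
  have g5 : ∀ r, r ∉ B → |∑ j, a r j * (Sum.elim x (fun _ => 1) : V ⊕ (R × Fin Δ) → ℝ) (c r j)| ≤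
      C₀ := by
    intro r hr
    rw [hsum]
    exact hgood r hr
  have g6 : 2 * t * (1 + Fintype.card (Fin Δ)) ≤ m := by
    rw [Fintype.card_fin]
    exact ht
  have key := hR R (V ⊕ (R × Fin Δ)) (Fin Δ) c a (Sum.elim x (fun _ => 1)) C₀ m t B
    g1 g2 g3 hC hB g6
  have key2 := key (by
    intro S T hS hST
    have h1 := g4 S T hS hST
    convert h1)
  obtain ⟨y, hy, hy2⟩ := key2 g5
  refine ⟨fun v => y (Sum.inl v), fun v => hy _, fun r => ?_⟩
  rw [← hsum y r]
  exact hy2 r

end Pool.Agent.L0h88.KC
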